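import Pool.Agent.L0h7.CG.App

set_option autoImplicit false

/-!
# The Atiyah conjecture and covers of finite cubic graphs

For every group `G`, the dimensions of the kernels of the matrices over `ℚ[G]` are exactly the
multiplicities of the eigenvalue zero of the regular covers with deck group `G` of finite connected
cubic graphs. So the Atiyah conjecture is a statement about cubic graphs; for graphs of degree at most
two it is true.

Outline. Every matrix over `ℤ[G]` has, up to units and an identity block, entries `0`, `g`, `-g`
only (square grid form). Three graph constructions do not change the dimension of the kernel of the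
adjacency operator, because they are Schur complements: a path of length four between two halves of a
vertex (this lowers degrees to three), a path of length two between two halves of a vertex (this
changes a sign, and makes the graph connected by adding the difference of two halves of a complete
graph with voltages), and attaching a finite graph with 13 vertices whose adjacency matrix is
invertible with an inverse that vanishes at the vertex of attachment (this raises degrees to three).
-/

noncomputable section

namespace Pool.Agent.Results.MP_95030e_al.CubicCovers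

/-- The kernel of right multiplication by the matrix `A` on `ℓ²(G)^m`. -/
def kernel {G : Type} [Group G] {m n : ℕ} (A : Matrix (Fin m) (Fin n) (G →₀ ℂ)) :
    Set (lp (fun _ : Fin m × G => ℂ) 2) :=
  {x | ∀ (j : Fin n) (g : G),
    ∑ i : Fin m, (A i j).sum (fun h c => x (i, g * h⁻¹) * c) = 0}

open Classical in
/-- The von Neumann dimension of this kernel: the sum over `i` of one minus the squared distance
from the basis vector at `(i, 1)` to the kernel, that is, the trace of the projection onto the
kernel. -/
def kerDim {G : Type} [Group G] {m n : ℕ} (A : Matrix (Fin m) (Fin n) (G →₀ ℂ)) : ℝ :=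
  ∑ i : Fin m, (1 - (Metric.infDist
    (lp.single 2 (i, (1 : G)) (1 : ℂ) : lp (fun _ : Fin m × G => ℂ) 2) (kernel A)) ^ 2)

/-- `G` is torsion-free. -/
def TorsionFree (G : Type) [Group G] : Prop := ∀ g : G, ∀ n : ℕ, 0 < n → g ^ n = 1 → g = 1

/-- `C` is a class of torsion-free groups which is closed under subgroups and isomorphisms
(injective homomorphisms into a member), direct products of arbitrary families, semidirect products
with `ℤ`, and free products with free groups of finite rank. -/
structure ClosedClass (C : (G : Type) → [Group G] → Prop) : Prop where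
  torsionFree : ∀ (G : Type) [Group G], C G → TorsionFree G
  subgroup : ∀ (G H : Type) [Group G] [Group H] (f : G →* H), Function.Injective f → C H → C G
  product : ∀ (I : Type) (G : I → Type) [∀ i, Group (G i)], (∀ i, C (G i)) → C (∀ i, G i)
  semidirect : ∀ (G : Type) [Group G] (s : MulAut G), C G →
    C (G ⋊[zpowersHom (MulAut G) s] Multiplicative ℤ)
  freeProduct : ∀ (G : Type) [Group G] (m : ℕ), C G → C (Monoid.Coprod G (FreeGroup (Fin m)))

/-- The regular cover of the graph `Q` with deck group `G` and voltages `γ` (with
`γ w v = (γ v w)⁻¹`): its vertices are the pairs `(v, g)`, and `(v, g)` is adjacent to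
`(w, g γ(v, w))` for every edge `vw` of `Q`. The group `G` acts freely from the left. -/
def cover {G : Type} [Group G] {V : Type} (Q : SimpleGraph V) (γ : V → V → G) :
    SimpleGraph (V × G) where
  Adj p q := Q.Adj p.1 q.1 ∧ p.2 * γ p.1 q.1 = q.2 ∧ q.2 * γ q.1 p.1 = p.2
  symm := ⟨fun _ _ h => ⟨h.1.symm, h.2.2, h.2.1⟩⟩
  loopless := ⟨fun _ h => h.1.ne rfl⟩

/-- The kernel of the adjacency operator of a (locally finite) graph on `V × G`: the square summable
functions whose sum over the neighbours of every vertex is zero. -/
def zeroFun {G : Type} {V : Type} (Γ : SimpleGraph (V × G)) :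
    Set (lp (fun _ : V × G => ℂ) 2) :=
  {x | ∀ p, ∑ᶠ q ∈ Γ.neighborSet p, x q = 0}

open Classical in
/-- The von Neumann dimension of this kernel, that is, the multiplicity of the eigenvalue zero of
the adjacency operator: the sum over the vertices `v` of `Q` of one minus the squared distance from
the basis vector at `(v, 1)` to the kernel. -/
def nullity {G : Type} [Group G] {V : Type} [Fintype V] (Γ : SimpleGraph (V × G)) : ℝ :=
  ∑ v : V, (1 - (Metric.infDist
    (lp.single 2 (v, (1 : G)) (1 : ℂ) : lp (fun _ : V × G => ℂ) 2) (zeroFun Γ)) ^ 2)

/-- `Q` is a connected cubic graph, `γ` are voltages, and the cover is connected if `G` is finitely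
generated. -/
def Cubic {G : Type} [Group G] {V : Type} (Q : SimpleGraph V) (γ : V → V → G) : Prop :=
  Q.Connected ∧ (∀ v, (Q.neighborSet v).ncard = 3) ∧ (∀ v w, γ w v = (γ v w)⁻¹) ∧
    (Group.FG G → (cover Q γ).Connected)

open Pool.Agent.L0h7 Pool.Agent.Y477

theorem cls {C : (G : Type) → [Group G] → Prop} (h : ClosedClass C) : AV.ClosedClass C :=
  ⟨h.torsionFree, h.subgroup, h.product, h.semidirect, h.freeProduct⟩

theorem cls' {C : (G : Type) → [Group G] → Prop} (h : AV.ClosedClass C) : ClosedClass C :=
  ⟨h.torsionFree, h.subgroup, h.product, h.semidirect, h.freeProduct⟩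

/-- 1. Let `G` be any group. A real number is the kernel dimension of a matrix with rational
coefficients over `G` if and only if it is the multiplicity of the eigenvalue zero of a regular cover
with deck group `G` of a finite connected cubic graph; if `G` is finitely generated, the cover can be
taken connected.
2. If `G` is torsion-free, the regular covers with deck group `G` of the finite graphs of degree at
most two have integral multiplicity.
3. Let `C` be a class of torsion-free groups which is closed under subgroups, direct products,
semidirect products with `ℤ` and free products with free groups of finite rank, for example the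
class of all torsion-free groups. The following are equivalent: the Atiyah conjecture over `ℂ` for
all groups of `C`; for all finitely generated groups of `C` the multiplicity of the eigenvalue zero
of the connected covers of finite cubic graphs is an integer; some real number `r ≥ 0` is not such a
multiplicity. -/
theorem result :
    (∀ (G : Type) [Group G] (r : ℝ),
      (∃ (m n : ℕ) (A : Matrix (Fin m) (Fin n) (G →₀ ℂ)),
        (∀ i j g, ∃ q : ℚ, A i j g = q) ∧ kerDim A = r) ↔
      ∃ (V : Type) (_ : Fintype V) (Q : SimpleGraph V) (γ : V → V → G), Cubic Q γ ∧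
        nullity (cover Q γ) = r) ∧
    (∀ (G : Type) [Group G], TorsionFree G → ∀ (V : Type) [Fintype V] (Q : SimpleGraph V)
      (γ : V → V → G), (∀ v w, γ w v = (γ v w)⁻¹) → (∀ v, (Q.neighborSet v).ncard ≤ 2) →
        ∃ z : ℤ, nullity (cover Q γ) = z) ∧
    ClosedClass (fun (G : Type) [Group G] => TorsionFree G) ∧
    ∀ C : (G : Type) → [Group G] → Prop, ClosedClass C → List.TFAE [
      ∀ (G : Type) [Group G], C G → ∀ (m n : ℕ) (A : Matrix (Fin m) (Fin n) (G →₀ ℂ)),
        ∃ z : ℤ, kerDim A = z,
      ∀ (G : Type) [Group G], C G → Group.FG G → ∀ (V : Type) [Fintype V] (Q : SimpleGraph V)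
        (γ : V → V → G), Cubic Q γ → ∃ z : ℤ, nullity (cover Q γ) = z,
      ∃ r : ℝ, 0 ≤ r ∧ ∀ (G : Type) [Group G], C G → Group.FG G → ∀ (V : Type) [Fintype V]
        (Q : SimpleGraph V) (γ : V → V → G), Cubic Q γ → nullity (cover Q γ) ≠ r] := by
  refine ⟨fun G _ r => ⟨?_, ?_⟩, ?_, cls' AV.closedClass_torsionFree, fun C hC => ?_⟩
  · rintro ⟨m, n, A, hA, rfl⟩
    exact CG.good_of_rat A hA
  · rintro ⟨V, _, Q, γ, hQ, rfl⟩
    obtain ⟨m, A, hA, h⟩ := CG.kerDim_of_null Q γ hQ.2.2.1
    refine ⟨m, m, A, fun i j g => ?_, h⟩
    obtain ⟨z, hz⟩ := hA i j g
    exact ⟨z, by rw [hz]; simp⟩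
  · intro G _ hG V _ Q γ hγ hd
    exact CG.null_two_tf hG Q γ hγ hd
  · exact CG.tfae_class (cls hC)

end Pool.Agent.Results.MP_95030e_al.CubicCovers
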