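import Pool.Agent.L0h7.CG.Gen2

set_option autoImplicit false

/-!
# The Atiyah conjecture and the norm of graphs

For graphs with a free cocompact action of a torsion-free group the norm `3 / √2` is a threshold. If
the adjacency operator has norm at most `3 / √2`, the von Neumann dimensions of all its eigenspaces,
and of the kernels of all invariant operators along the graph, are integers. For every bound
`c > 3 / √2` the dimensions of the kernels of the graphs with norm at most `c` are the kernel
dimensions of all matrices over `ℚ[G]`, and the Atiyah conjecture is a statement about these graphs.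

Outline. Below: the bipartite double cover of a graph of norm at most `3 / √2` has components with
virtually cyclic stabilisers (critical norm theorem), so the same holds for the graph itself; the
invariant operators along the graph are then induced from virtually cyclic groups. Above: every
kernel dimension is the multiplicity of the eigenvalue zero of a cover of a finite graph of degree
three; the edges are replaced by paths with `4 m + 4` inner vertices, whose adjacency matrix is
invertible with corner entries `0` and `-1`, so that the multiplicity does not change (Schur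
complement); the norm tends to `3 / √2`, by Schur's test with the weights `2^(-j/2) + 2^(-(l-j)/2)`
on the paths of length `l`.
-/

noncomputable section

namespace Pool.Agent.Results.MP_95030e_al.GraphNormThreshold

/-- `G` is torsion-free. -/
def TorsionFree (G : Type) [Group G] : Prop := ∀ g : G, ∀ n : ℕ, 0 < n → g ^ n = 1 → g = 1

/-- `C` is a class of torsion-free groups which is closed under subgroups and isomorphisms
(injective homomorphisms into a member), direct products of arbitrary families, semidirect products
with `ℤ`, and free products with free groups of finite rank. -/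
structure ClosedClass (C : (G : Type) → [Group G] → Prop) : Prop where
  torsionFree : ∀ (G : Type) [Group G], C G → TorsionFree G
  subgroup : ∀ (G H : Type) [Group G] [Group H] (f : G →* H), Function.Injective f → C H → C G
  product : ∀ (I : Type) (G : I → Type) [∀ i, Group (G i)], (∀ i, C (G i)) → C (∀ i, G i)
  semidirect : ∀ (G : Type) [Group G] (s : MulAut G), C G →
    C (G ⋊[zpowersHom (MulAut G) s] Multiplicative ℤ)
  freeProduct : ∀ (G : Type) [Group G] (m : ℕ), C G → C (Monoid.Coprod G (FreeGroup (Fin m)))

/-- The kernel of right multiplication by the matrix `A` on `ℓ²(G)^K`. -/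
def kernel {G : Type} [Group G] {K L : Type} [Fintype K] (A : Matrix K L (MonoidAlgebra ℂ G)) :
    Set (lp (fun _ : K × G => ℂ) 2) :=
  {x | ∀ (j : L) (g : G), ∑ i : K, (A i j).coeff.sum (fun h c => x (i, g * h⁻¹) * c) = 0}

open Classical in
/-- The von Neumann dimension of this kernel: the sum over `i` of one minus the squared distance
from the basis vector at `(i, 1)` to the kernel, that is, the trace of the projection onto the
kernel. -/
def kerDim {G : Type} [Group G] {K L : Type} [Fintype K] (A : Matrix K L (MonoidAlgebra ℂ G)) : ℝ :=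
  ∑ i : K, (1 - (Metric.infDist
    (lp.single 2 (i, (1 : G)) (1 : ℂ) : lp (fun _ : K × G => ℂ) 2) (kernel A)) ^ 2)

/-- The regular cover of the graph `Q` with deck group `G` and voltages `γ` (with
`γ w v = (γ v w)⁻¹`): its vertices are the pairs `(v, g)`, and `(v, g)` is adjacent to
`(w, g γ(v, w))` for every edge `vw` of `Q`. The group `G` acts freely from the left. -/
def cover {G : Type} [Group G] {V : Type} (Q : SimpleGraph V) (γ : V → V → G) :
    SimpleGraph (V × G) where
  Adj p q := Q.Adj p.1 q.1 ∧ p.2 * γ p.1 q.1 = q.2 ∧ q.2 * γ q.1 p.1 = p.2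
  symm := ⟨fun _ _ h => ⟨h.1.symm, h.2.2, h.2.1⟩⟩
  loopless := ⟨fun _ h => h.1.ne rfl⟩

/-- The eigenspace of the adjacency operator of a (locally finite) graph on `V × G`: the square
summable functions `x` whose sum over the neighbours of every vertex `p` is `z x(p)`. -/
def eigenspace {G : Type} {V : Type} (Γ : SimpleGraph (V × G)) (z : ℂ) :
    Set (lp (fun _ : V × G => ℂ) 2) :=
  {x | ∀ p, ∑ᶠ q ∈ Γ.neighborSet p, x q = z * x p}

open Classical in
/-- The von Neumann dimension of the eigenspace, that is, the multiplicity of the eigenvalue `z` of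
the adjacency operator: the sum over the vertices `v` of `Q` of one minus the squared distance from
the basis vector at `(v, 1)` to the eigenspace. -/
def mult {G : Type} [Group G] {V : Type} [Fintype V] (Γ : SimpleGraph (V × G)) (z : ℂ) : ℝ :=
  ∑ v : V, (1 - (Metric.infDist
    (lp.single 2 (v, (1 : G)) (1 : ℂ) : lp (fun _ : V × G => ℂ) 2) (eigenspace Γ z)) ^ 2)

/-- The norm of the (adjacency operator of the) graph is at most `c`: the largest eigenvalue of every
finite induced subgraph is at most `c`. -/
def NormLE {X : Type} (Γ : SimpleGraph X) (c : ℝ) : Prop :=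
  ∀ (s : Finset X) (f : X → ℝ),
    ∑ p ∈ s, ∑ᶠ q ∈ (s : Set X) ∩ Γ.neighborSet p, f p * f q ≤ c * ∑ p ∈ s, f p ^ 2

/-- The graph is invariant under the left action of `G` on `V × G`. (Every free action of `G` on a
set with finitely many orbits is isomorphic to this one, with `V` the set of orbits.) -/
def Invariant {G : Type} [Group G] {V : Type} (Γ : SimpleGraph (V × G)) : Prop :=
  ∀ (k : G) (p q : V × G), Γ.Adj p q → Γ.Adj (p.1, k * p.2) (q.1, k * q.2)

/-- The matrix `B` is an invariant operator along the components of the graph: its entry at `(v, w)`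
involves only group elements `g` for which `(w, g)` can be reached from `(v, 1)`. Examples: invariant
complex weights on the edges and vertices, polynomials in such operators. -/
def Along {G : Type} [Group G] {V : Type} (Γ : SimpleGraph (V × G))
    (B : Matrix V V (MonoidAlgebra ℂ G)) : Prop :=
  ∀ v w g, (B v w).coeff g ≠ 0 → Γ.Reachable (v, 1) (w, g)

/-- `Q` is a connected graph of degree at most three, `γ` are voltages, the cover is connected if `G`
is finitely generated, and the norm of the cover is at most `c`. -/
def Small {G : Type} [Group G] {V : Type} (Q : SimpleGraph V) (γ : V → V → G) (c : ℝ) : Prop :=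
  Q.Connected ∧ (∀ v, (Q.neighborSet v).ncard ≤ 3) ∧ (∀ v w, γ w v = (γ v w)⁻¹) ∧
    (Group.FG G → (cover Q γ).Connected) ∧ NormLE (cover Q γ) c

open Pool.Agent.L0h7 Pool.Agent.Y477 TH57.Thr.Ati

theorem kerDim_kap {G : Type} [Group G] {K L : Type} [Fintype K] [Fintype L] [i1 : DecidableEq K]
    [DecidableEq L] (A : Matrix K L (MonoidAlgebra ℂ G)) : kerDim A = kap A := by
  have h : i1 = fun a b => Classical.propDecidable (a = b) := Subsingleton.elim _ _
  rw [← kerC_dim A]
  subst h
  rfl

theorem kerDim_fin {G : Type} [Group G] {m n : ℕ} (A : Matrix (Fin m) (Fin n) (MonoidAlgebra ℂ G)) :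
    kerDim A = Pool.Agent.W656.VA.kerDim fun i j => (A i j).coeff := by
  rw [kerDim_kap, AV.kerDim_kap]
  rfl

theorem kerDim_fin' {G : Type} [Group G] {m n : ℕ} (A : Matrix (Fin m) (Fin n) (G →₀ ℂ)) :
    Pool.Agent.W656.VA.kerDim A = kerDim (Matrix.of fun i j => MonoidAlgebra.ofCoeff (A i j)) := by
  rw [kerDim_kap, AV.kerDim_kap]
  rfl

theorem mult_zero {G : Type} [Group G] {V : Type} [Fintype V] (Γ : SimpleGraph (V × G)) :
    mult Γ 0 = CG.nullity Γ := by
  have h : eigenspace Γ 0 = CG.zeroFun Γ := by
    ext x
    refine forall_congr' fun p => ?_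
    rw [zero_mul]
  unfold mult
  rw [h]
  rfl

theorem cls {C : (G : Type) → [Group G] → Prop} (h : ClosedClass C) : AV.ClosedClass C :=
  ⟨h.torsionFree, h.subgroup, h.product, h.semidirect, h.freeProduct⟩

theorem cls' {C : (G : Type) → [Group G] → Prop} (h : AV.ClosedClass C) : ClosedClass C :=
  ⟨h.torsionFree, h.subgroup, h.product, h.semidirect, h.freeProduct⟩

theorem int_of_lam {G : Type} [Group G] (hG : TorsionFree G) {x : ℝ} (hx : x ∈ AV.Lam G) :
    ∃ k : ℤ, x = k := by
  obtain ⟨k, hk⟩ := AV.Lam_int G 1
    (fun F hF => (Pool.Agent.W656.VA.isLcm_one (G := G) hG).2.1 F hF) x hx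
  exact ⟨k, by rw [← hk, Nat.cast_one, one_mul]⟩

/-- 1. Let `G` be a torsion-free group which acts freely and with finitely many orbits of vertices on
a graph `Γ`. If the norm of `Γ` is at most `3 / √2`, then the multiplicities of all eigenvalues of the
adjacency operator of `Γ`, and the kernel dimensions of all invariant operators along `Γ`, are
integers.
2. Let `c > 3 / √2`, and let `G` be any group. A real number is the kernel dimension of a matrix over
`ℚ[G]` if and only if it is the multiplicity of the eigenvalue zero of a regular cover with deck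
group `G` of a finite connected graph of degree at most three, where the cover has norm at most `c`,
and is connected if `G` is finitely generated.
3. Let `c > 3 / √2`, and let `C` be a class of torsion-free groups which is closed under subgroups,
direct products, semidirect products with `ℤ` and free products with free groups of finite rank, for
example the class of all torsion-free groups. The following are equivalent: the Atiyah conjecture
over `ℂ` for all groups of `C`; integrality of the multiplicity of the eigenvalue zero for the
connected covers as in 2 over the finitely generated groups of `C`; some real number `r ≥ 0` is not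
such a multiplicity. -/
theorem result :
    (∀ (G : Type) [Group G], TorsionFree G → ∀ (V : Type) [Fintype V] (Γ : SimpleGraph (V × G)),
      Invariant Γ → NormLE Γ (3 / Real.sqrt 2) →
        (∀ z : ℂ, ∃ k : ℤ, mult Γ z = k) ∧
        ∀ B : Matrix V V (MonoidAlgebra ℂ G), Along Γ B → ∃ k : ℤ, kerDim B = k) ∧
    (∀ c : ℝ, 3 / Real.sqrt 2 < c → ∀ (G : Type) [Group G] (r : ℝ),
      (∃ (m n : ℕ) (A : Matrix (Fin m) (Fin n) (MonoidAlgebra ℂ G)),
        (∀ i j g, ∃ q : ℚ, (A i j).coeff g = q) ∧ kerDim A = r) ↔
      ∃ (V : Type) (_ : Fintype V) (Q : SimpleGraph V) (γ : V → V → G), Small Q γ c ∧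
        mult (cover Q γ) 0 = r) ∧
    ClosedClass (fun (G : Type) [Group G] => TorsionFree G) ∧
    ∀ c : ℝ, 3 / Real.sqrt 2 < c → ∀ C : (G : Type) → [Group G] → Prop, ClosedClass C →
      List.TFAE [
        ∀ (G : Type) [Group G], C G → ∀ (m n : ℕ) (A : Matrix (Fin m) (Fin n) (MonoidAlgebra ℂ G)),
          ∃ k : ℤ, kerDim A = k,
        ∀ (G : Type) [Group G], C G → Group.FG G → ∀ (V : Type) [Fintype V] (Q : SimpleGraph V)
          (γ : V → V → G), Small Q γ c → ∃ k : ℤ, mult (cover Q γ) 0 = k,
        ∃ r : ℝ, 0 ≤ r ∧ ∀ (G : Type) [Group G], C G → Group.FG G → ∀ (V : Type) [Fintype V]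
          (Q : SimpleGraph V) (γ : V → V → G), Small Q γ c → mult (cover Q γ) 0 ≠ r] := by
  classical
  refine ⟨?_, ?_, cls' AV.closedClass_torsionFree, ?_⟩
  · intro G _ hG V _ Γ hΓ h
    refine ⟨fun z => int_of_lam hG (CGG.below_mult hΓ h z), fun B hB => ?_⟩
    rw [kerDim_kap]
    exact int_of_lam hG (CGG.below_all hΓ h B hB)
  · intro c hc G _ r
    constructor
    · rintro ⟨m, n, A, hA, rfl⟩
      obtain ⟨V, i, Q, γ, h1, h2⟩ := CG.small_of_rat (fun i j => (A i j).coeff) hA c hc
      exact ⟨V, i, Q, γ, h1, by rw [mult_zero, kerDim_fin]; exact h2⟩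
    · rintro ⟨V, _, Q, γ, hQ, rfl⟩
      obtain ⟨m, A, hA, h⟩ := CG.kerDim_of_null Q γ hQ.2.2.1
      refine ⟨m, m, Matrix.of fun i j => MonoidAlgebra.ofCoeff (A i j), fun i j g => ?_, ?_⟩
      · obtain ⟨z, hz⟩ := hA i j g
        exact ⟨z, by change A i j g = _; rw [hz]; simp⟩
      · rw [mult_zero, ← kerDim_fin']
        exact h
  · intro c hc C hC
    tfae_have 1 → 2 := by
      intro h1 G _ hG _ V _ Q γ hQ
      obtain ⟨m, A, _, hA⟩ := CG.kerDim_of_null Q γ hQ.2.2.1
      rw [kerDim_fin'] at hA
      obtain ⟨z, hz⟩ := h1 G hG m m (Matrix.of fun i j => MonoidAlgebra.ofCoeff (A i j))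
      exact ⟨z, by rw [mult_zero]; exact hA.symm.trans hz⟩
    tfae_have 2 → 3 := by
      intro h1
      refine ⟨1 / 2, by norm_num, ?_⟩
      intro G _ hG hf V _ Q γ hQ hr
      obtain ⟨z, hz⟩ := h1 G hG hf V Q γ hQ
      rw [hr] at hz
      have h1 : (2 * z : ℝ) = 1 := by linarith
      have h2 : 2 * z = 1 := by exact_mod_cast h1
      omega
    tfae_have 3 → 1 := by
      rintro ⟨r, hr, h2⟩ G _ hG m n A
      rw [kerDim_fin]
      exact (CG.small_iff (cls hC) c hc).1 ⟨r, hr, fun G _ hG hf V _ Q γ hQ => by
        have := h2 G hG hf V Q γ hQ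
        rwa [mult_zero] at this⟩ G hG m n _
    tfae_finish

end Pool.Agent.Results.MP_95030e_al.GraphNormThreshold
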