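import Pool.Agent.L0h7.TC.App
import Pool.Agent.L0h19.TC.Deg
import Pool.Agent.L0h60.TC.Conn

set_option autoImplicit false

/-!
# The Atiyah conjecture and second `L²`-Betti numbers of complexes with two or three triangles at
every edge

For every group `G`, the dimensions of the kernels of the matrices over `ℚ[G]` are exactly the
second `L²`-Betti numbers of the regular covers with deck group `G` of finite connected
2-dimensional simplicial complexes all of whose edges lie in two or three triangles. So the Atiyah
conjecture is a statement about these complexes; for torsion-free groups and complexes with at most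
two triangles at every edge it is true.

Outline. By `CubicCovers` kernel dimensions are nullities of covers of cubic graphs. Over a cubic
graph put a circle with three edges at every vertex, and for every vertex a pair of pants whose
boundary circles are the circles of the three neighbours; so three triangles meet at the edges of the
circles, and two at all other edges. A 2-cycle is constant on every pair of pants, and its boundary on
the circles is the adjacency operator. Projective planes, which carry no cycles, make the complex
connected.
-/

noncomputable section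

namespace Pool.Agent.Results.MP_95030e_al.SecondBetti

/-- The kernel of right multiplication by the matrix `A` on `ℓ²(G)^m`. -/
def kernel {G : Type} [Group G] {m n : ℕ} (A : Matrix (Fin m) (Fin n) (G →₀ ℂ)) :
    Set (lp (fun _ : Fin m × G => ℂ) 2) :=
  {x | ∀ (j : Fin n) (g : G),
    ∑ i : Fin m, (A i j).sum (fun h c => x (i, g * h⁻¹) * c) = 0}

open Classical in
/-- The von Neumann dimension of this kernel: the sum over `i` of one minus the squared distance
from the basis vector at `(i, 1)` to the kernel, that is, the trace of the projection onto the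
kernel. -/
def kerDim {G : Type} [Group G] {m n : ℕ} (A : Matrix (Fin m) (Fin n) (G →₀ ℂ)) : ℝ :=
  ∑ i : Fin m, (1 - (Metric.infDist
    (lp.single 2 (i, (1 : G)) (1 : ℂ) : lp (fun _ : Fin m × G => ℂ) 2) (kernel A)) ^ 2)

/-- `G` is torsion-free. -/
def TorsionFree (G : Type) [Group G] : Prop := ∀ g : G, ∀ n : ℕ, 0 < n → g ^ n = 1 → g = 1

/-- `C` is a class of torsion-free groups which is closed under subgroups and isomorphisms
(injective homomorphisms into a member), direct products of arbitrary families, semidirect products
with `ℤ`, and free products with free groups of finite rank. -/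
structure ClosedClass (C : (G : Type) → [Group G] → Prop) : Prop where
  torsionFree : ∀ (G : Type) [Group G], C G → TorsionFree G
  subgroup : ∀ (G H : Type) [Group G] [Group H] (f : G →* H), Function.Injective f → C H → C G
  product : ∀ (I : Type) (G : I → Type) [∀ i, Group (G i)], (∀ i, C (G i)) → C (∀ i, G i)
  semidirect : ∀ (G : Type) [Group G] (s : MulAut G), C G →
    C (G ⋊[zpowersHom (MulAut G) s] Multiplicative ℤ)
  freeProduct : ∀ (G : Type) [Group G] (m : ℕ), C G → C (Monoid.Coprod G (FreeGroup (Fin m)))

/-- The graph whose edges are the edges of the triangles of `K`. -/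
def edgeGraph {X : Type} (K : Set (Set X)) : SimpleGraph X where
  Adj u v := u ≠ v ∧ ∃ w, ({u, v, w} : Set X) ∈ K
  symm := ⟨fun u v h => ⟨h.1.symm, by
    obtain ⟨w, hw⟩ := h.2
    exact ⟨w, by rw [Set.insert_comm]; exact hw⟩⟩⟩
  loopless := ⟨fun _ h => h.1 rfl⟩

/-- The regular cover of the graph `Q` with deck group `G` and voltages `γ` (with
`γ w v = (γ v w)⁻¹`): its vertices are the pairs `(v, g)`, and `(v, g)` is adjacent to
`(w, g γ(v, w))` for every edge `vw` of `Q`. The group `G` acts freely from the left. -/
def cover {G : Type} [Group G] {V : Type} (Q : SimpleGraph V) (γ : V → V → G) :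
    SimpleGraph (V × G) where
  Adj p q := Q.Adj p.1 q.1 ∧ p.2 * γ p.1 q.1 = q.2 ∧ q.2 * γ q.1 p.1 = p.2
  symm := ⟨fun _ _ h => ⟨h.1.symm, h.2.2, h.2.1⟩⟩
  loopless := ⟨fun _ h => h.1.ne rfl⟩

/-- `K` is the set of triangles of a connected 2-dimensional complex with vertex set `X`, every edge
of which lies in two or three triangles; `γ` are voltages on the edges with trivial product around
every triangle, so that they define a regular cover of the complex with deck group `G`; and this
cover is connected if `G` is finitely generated. -/
def TwoThree {G : Type} [Group G] {X : Type} (K : Set (Set X)) (γ : X → X → G) : Prop :=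
  (∀ T ∈ K, T.ncard = 3) ∧
  (∀ u v w, ({u, v, w} : Set X) ∈ K → 2 ≤ {x | ({u, v, x} : Set X) ∈ K}.ncard ∧
    {x | ({u, v, x} : Set X) ∈ K}.ncard ≤ 3) ∧
  (∀ u v, γ v u = (γ u v)⁻¹) ∧ (∀ u v w, ({u, v, w} : Set X) ∈ K → γ u v * γ v w = γ u w) ∧
  (edgeGraph K).Connected ∧ (Group.FG G → (cover (edgeGraph K) γ).Connected)

/-- `x` is a simplicial 2-cycle of the cover of the complex `K` given by the voltages `γ`:
`x ((u, v, w), g)` is the coefficient of the oriented triangle with the vertices `(u, g)`,
`(v, g γ(u, v))`, `(w, g γ(u, w))`. It is zero if `uvw` is not a triangle of `K`, changes its sign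
if two vertices are exchanged, and the sum of the coefficients of the triangles at every oriented
edge is zero. -/
def IsCycle {G X : Type} [Group G] [Fintype X] (K : Set (Set X)) (γ : X → X → G)
    (x : (X × X × X) × G → ℂ) : Prop :=
  (∀ u v w g, ({u, v, w} : Set X) ∉ K → x ((u, v, w), g) = 0) ∧
  (∀ u v w g, x ((u, w, v), g) = - x ((u, v, w), g)) ∧
  (∀ u v w g, x ((v, u, w), g * γ u v) = - x ((u, v, w), g)) ∧
  ∀ u v g, ∑ w, x ((u, v, w), g) = 0

/-- The square summable simplicial 2-cycles of the cover. -/
def cycles {G X : Type} [Group G] [Fintype X] (K : Set (Set X)) (γ : X → X → G) :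
    Set (lp (fun _ : (X × X × X) × G => ℂ) 2) :=
  {x | IsCycle K γ x}

open Classical in
/-- The second `L²`-Betti number of the cover with respect to `G`, that is, the von Neumann
dimension of the space of square summable 2-cycles: the sum over the triples `t` of one minus the
squared distance from the basis vector at `(t, 1)` to this space. -/
def betti2 {G X : Type} [Group G] [Fintype X] (K : Set (Set X)) (γ : X → X → G) : ℝ :=
  ∑ t : X × X × X, (1 - (Metric.infDist (lp.single 2 (t, (1 : G)) (1 : ℂ) :
    lp (fun _ : (X × X × X) × G => ℂ) 2) (cycles K γ)) ^ 2)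

open Pool.Agent.L0h7 Pool.Agent.Y477

theorem cls {C : (G : Type) → [Group G] → Prop} (h : ClosedClass C) : AV.ClosedClass C :=
  ⟨h.torsionFree, h.subgroup, h.product, h.semidirect, h.freeProduct⟩

theorem cls' {C : (G : Type) → [Group G] → Prop} (h : AV.ClosedClass C) : ClosedClass C :=
  ⟨h.torsionFree, h.subgroup, h.product, h.semidirect, h.freeProduct⟩

/-- 1. Let `G` be any group. A real number is the kernel dimension of a matrix with rational
coefficients over `G` if and only if it is the second `L²`-Betti number of a regular cover with deck
group `G` of a finite connected 2-complex, all of whose edges lie in two or three triangles; if `G`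
is finitely generated, the cover can be taken connected.
2. If `G` is torsion-free and every edge of a finite 2-complex lies in at most two triangles, then
the second `L²`-Betti number of its cover is an integer.
3. Let `C` be a class of torsion-free groups which is closed under subgroups, direct products,
semidirect products with `ℤ` and free products with free groups of finite rank, for example the
class of all torsion-free groups. The following are equivalent: the Atiyah conjecture over `ℂ` for
all groups of `C`; for all finitely generated groups of `C` the second `L²`-Betti numbers of the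
covers as in 1 are integers; some real number `r ≥ 0` is not such a Betti number. -/
theorem result :
    (∀ (G : Type) [Group G] (r : ℝ),
      (∃ (m n : ℕ) (A : Matrix (Fin m) (Fin n) (G →₀ ℂ)),
        (∀ i j g, ∃ q : ℚ, A i j g = q) ∧ kerDim A = r) ↔
      ∃ (X : Type) (_ : Fintype X) (K : Set (Set X)) (γ : X → X → G), TwoThree K γ ∧
        betti2 K γ = r) ∧
    (∀ (G : Type) [Group G], TorsionFree G → ∀ (X : Type) [Fintype X] (K : Set (Set X))
      (γ : X → X → G), (∀ T ∈ K, T.ncard = 3) →
        (∀ u v, u ≠ v → {w | ({u, v, w} : Set X) ∈ K}.ncard ≤ 2) → ∃ z : ℤ, betti2 K γ = z) ∧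
    ClosedClass (fun (G : Type) [Group G] => TorsionFree G) ∧
    ∀ C : (G : Type) → [Group G] → Prop, ClosedClass C → List.TFAE [
      ∀ (G : Type) [Group G], C G → ∀ (m n : ℕ) (A : Matrix (Fin m) (Fin n) (G →₀ ℂ)),
        ∃ z : ℤ, kerDim A = z,
      ∀ (G : Type) [Group G], C G → Group.FG G → ∀ (X : Type) [Fintype X] (K : Set (Set X))
        (γ : X → X → G), TwoThree K γ → ∃ z : ℤ, betti2 K γ = z,
      ∃ r : ℝ, 0 ≤ r ∧ ∀ (G : Type) [Group G], C G → Group.FG G → ∀ (X : Type) [Fintype X]
        (K : Set (Set X)) (γ : X → X → G), TwoThree K γ → betti2 K γ ≠ r] := by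
  refine ⟨fun G _ r => ⟨?_, ?_⟩, ?_, cls' AV.closedClass_torsionFree, fun C hC => ?_⟩
  · rintro ⟨m, n, A, hA, rfl⟩
    exact TC.good2_of_rat L0h19.TC.s_deg L0h60.TC.s_conn L0h60.TC.s_conn0 A hA
  · rintro ⟨X, _, K, γ, _, rfl⟩
    classical
    obtain ⟨m, n, A, hA, h⟩ := TC.kerDim_of_betti K γ
    refine ⟨m, n, A, fun i j g => ?_, h⟩
    obtain ⟨z, hz⟩ := hA i j g
    exact ⟨z, by rw [hz]; simp⟩
  · intro G _ hG X _ K γ hK h2
    exact TC.betti_two_tf hG K γ hK h2
  · exact TC.tfae_class L0h19.TC.s_deg L0h60.TC.s_conn L0h60.TC.s_conn0 (cls hC)

end Pool.Agent.Results.MP_95030e_al.SecondBetti
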