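import Pool.Agent.L0h7.TE.App

set_option autoImplicit false

/-!
# The Atiyah conjecture and the eigenvalues of trees

Let `λ` be an eigenvalue of a finite tree. (By a theorem of Salez these are exactly the totally real
algebraic integers, so that `ℚ(λ)` is an arbitrary totally real number field.) For every group `G` the
dimensions of the kernels of the matrices over `ℚ(λ)[G]` are exactly the multiplicities of the
eigenvalue `λ` of the regular covers with deck group `G` of finite connected graphs of small degree,
and the covers can be taken connected (for finitely generated `G`) and of large girth.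

Outline. Entries `λ g` are moved to the diagonal of a self-adjoint matrix with the entries `0`, `g`,
`-g` outside the diagonal and `0`, `λ`, `-λ` (and `-2`) on the diagonal, by Schur complements; all
signs, large degrees and short cycles are then removed by the graph constructions which do not change
the kernel dimension. A minimal tree `T` with the eigenvalue `λ` has the property that
`aᵗ (λ - T')⁻¹ a = λ`, where `T'` is `T` without a leaf and `a` is the edge at this leaf; so attaching
`k` copies of `T'` to a vertex adds `k λ` to the diagonal entry `-λ` of the matrix of `Γ - λ`.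
-/

noncomputable section

namespace Pool.Agent.Results.MP_95030e_al.TreeEigenvalues

/-- `G` is torsion-free. -/
def TorsionFree (G : Type) [Group G] : Prop := ∀ g : G, ∀ n : ℕ, 0 < n → g ^ n = 1 → g = 1

/-- `C` is a class of torsion-free groups which is closed under subgroups and isomorphisms
(injective homomorphisms into a member), direct products of arbitrary families, semidirect products
with `ℤ`, and free products with free groups of finite rank. -/
structure ClosedClass (C : (G : Type) → [Group G] → Prop) : Prop where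
  torsionFree : ∀ (G : Type) [Group G], C G → TorsionFree G
  subgroup : ∀ (G H : Type) [Group G] [Group H] (f : G →* H), Function.Injective f → C H → C G
  product : ∀ (I : Type) (G : I → Type) [∀ i, Group (G i)], (∀ i, C (G i)) → C (∀ i, G i)
  semidirect : ∀ (G : Type) [Group G] (s : MulAut G), C G →
    C (G ⋊[zpowersHom (MulAut G) s] Multiplicative ℤ)
  freeProduct : ∀ (G : Type) [Group G] (m : ℕ), C G → C (Monoid.Coprod G (FreeGroup (Fin m)))

/-- The kernel of right multiplication by the matrix `A` on `ℓ²(G)^K`. -/
def kernel {G : Type} [Group G] {K L : Type} [Fintype K] (A : Matrix K L (MonoidAlgebra ℂ G)) :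
    Set (lp (fun _ : K × G => ℂ) 2) :=
  {x | ∀ (j : L) (g : G), ∑ i : K, (A i j).coeff.sum (fun h c => x (i, g * h⁻¹) * c) = 0}

open Classical in
/-- The von Neumann dimension of this kernel: the sum over `i` of one minus the squared distance
from the basis vector at `(i, 1)` to the kernel, that is, the trace of the projection onto the
kernel. -/
def kerDim {G : Type} [Group G] {K L : Type} [Fintype K] (A : Matrix K L (MonoidAlgebra ℂ G)) : ℝ :=
  ∑ i : K, (1 - (Metric.infDist
    (lp.single 2 (i, (1 : G)) (1 : ℂ) : lp (fun _ : K × G => ℂ) 2) (kernel A)) ^ 2)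

/-- The regular cover of the graph `Q` with deck group `G` and voltages `γ` (with
`γ w v = (γ v w)⁻¹`): its vertices are the pairs `(v, g)`, and `(v, g)` is adjacent to
`(w, g γ(v, w))` for every edge `vw` of `Q`. The group `G` acts freely from the left. -/
def cover {G : Type} [Group G] {V : Type} (Q : SimpleGraph V) (γ : V → V → G) :
    SimpleGraph (V × G) where
  Adj p q := Q.Adj p.1 q.1 ∧ p.2 * γ p.1 q.1 = q.2 ∧ q.2 * γ q.1 p.1 = p.2
  symm := ⟨fun _ _ h => ⟨h.1.symm, h.2.2, h.2.1⟩⟩
  loopless := ⟨fun _ h => h.1.ne rfl⟩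

/-- The eigenspace of the adjacency operator of a (locally finite) graph on `V × G`: the square
summable functions `x` whose sum over the neighbours of every vertex `p` is `z x(p)`. -/
def eigenspace {G : Type} {V : Type} (Γ : SimpleGraph (V × G)) (z : ℂ) :
    Set (lp (fun _ : V × G => ℂ) 2) :=
  {x | ∀ p, ∑ᶠ q ∈ Γ.neighborSet p, x q = z * x p}

open Classical in
/-- The von Neumann dimension of the eigenspace, that is, the multiplicity of the eigenvalue `z` of
the adjacency operator: the sum over the vertices `v` of `Q` of one minus the squared distance from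
the basis vector at `(v, 1)` to the eigenspace. -/
def mult {G : Type} [Group G] {V : Type} [Fintype V] (Γ : SimpleGraph (V × G)) (z : ℂ) : ℝ :=
  ∑ v : V, (1 - (Metric.infDist
    (lp.single 2 (v, (1 : G)) (1 : ℂ) : lp (fun _ : V × G => ℂ) 2) (eigenspace Γ z)) ^ 2)

/-- The real number `l` is an eigenvalue of a finite forest with all degrees at most `D`
(equivalently of such a tree, a component of the forest). -/
def TreeEigenvalue (D : ℕ) (l : ℝ) : Prop :=
  ∃ (W : Type) (_ : Fintype W) (T : SimpleGraph W) (f : W → ℝ), T.IsAcyclic ∧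
    (∀ w, (T.neighborSet w).ncard ≤ D) ∧ (∃ w, f w ≠ 0) ∧
    ∀ w, ∑ᶠ u ∈ T.neighborSet w, f u = l * f w

/-- `Q` is a connected graph of degree at most `D`, `γ` are voltages, the cover is connected if `G`
is finitely generated, and all cycles of the cover are longer than `n`. -/
def Fine {G : Type} [Group G] {V : Type} (Q : SimpleGraph V) (γ : V → V → G) (D n : ℕ) : Prop :=
  Q.Connected ∧ (∀ v, (Q.neighborSet v).ncard ≤ D) ∧ (∀ v w, γ w v = (γ v w)⁻¹) ∧
    (Group.FG G → (cover Q γ).Connected) ∧
    ∀ (p : V × G) (c : (cover Q γ).Walk p p), c.IsCycle → n < c.length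

open Pool.Agent.L0h7 Pool.Agent.Y477 TH57.Thr.Ati

theorem kerDim_kap {G : Type} [Group G] {K L : Type} [Fintype K] [Fintype L] [i1 : DecidableEq K]
    [DecidableEq L] (A : Matrix K L (MonoidAlgebra ℂ G)) : kerDim A = kap A := by
  have h : i1 = fun a b => Classical.propDecidable (a = b) := Subsingleton.elim _ _
  rw [← kerC_dim A]
  subst h
  rfl

theorem kerDim_fin {G : Type} [Group G] {m n : ℕ} (A : Matrix (Fin m) (Fin n) (MonoidAlgebra ℂ G)) :
    kerDim A = Pool.Agent.W656.VA.kerDim fun i j => (A i j).coeff := by
  rw [kerDim_kap, AV.kerDim_kap]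
  rfl

theorem kerDim_fin' {G : Type} [Group G] {m n : ℕ} (A : Matrix (Fin m) (Fin n) (G →₀ ℂ)) :
    Pool.Agent.W656.VA.kerDim A = kerDim (Matrix.of fun i j => MonoidAlgebra.ofCoeff (A i j)) := by
  rw [kerDim_kap, AV.kerDim_kap]
  rfl

/-- the correspondence -/
theorem corr {D : ℕ} {l : ℝ} (hD : 4 ≤ D) (hl : TreeEigenvalue D l) (n : ℕ) (G : Type) [Group G]
    (r : ℝ) :
    (∃ (a b : ℕ) (A : Matrix (Fin a) (Fin b) (MonoidAlgebra ℂ G)),
      (∀ i j g, (A i j).coeff g ∈ Subfield.closure {(l : ℂ)}) ∧ kerDim A = r) ↔
    ∃ (V : Type) (_ : Fintype V) (Q : SimpleGraph V) (γ : V → V → G), Fine Q γ D n ∧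
      mult (cover Q γ) l = r := by
  constructor
  · rintro ⟨a, b, A, hA, rfl⟩
    obtain ⟨V, i, Q, γ, h1, h2⟩ := TE.fine_of_field hD hl n (fun i j => (A i j).coeff) hA
    exact ⟨V, i, Q, γ, h1, by rw [kerDim_fin]; exact h2⟩
  · rintro ⟨V, _, Q, γ, hQ, rfl⟩
    obtain ⟨m, A, hA, h⟩ := TE.mult_mat l Q γ hQ.2.2.1
    refine ⟨m, m, Matrix.of fun i j => MonoidAlgebra.ofCoeff (A i j), fun i j g => ?_, ?_⟩
    · exact Subring.closure_le (t := (Subfield.closure {(l : ℂ)}).toSubring).2
        Subfield.subset_closure (hA i j g)
    · rw [← kerDim_fin']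
      exact h

theorem cls {C : (G : Type) → [Group G] → Prop} (h : ClosedClass C) : AV.ClosedClass C :=
  ⟨h.torsionFree, h.subgroup, h.product, h.semidirect, h.freeProduct⟩

theorem cls' {C : (G : Type) → [Group G] → Prop} (h : AV.ClosedClass C) : ClosedClass C :=
  ⟨h.torsionFree, h.subgroup, h.product, h.semidirect, h.freeProduct⟩

/-- Let `D ≥ 4`, let `l` be an eigenvalue of a finite forest with all degrees at most `D`, and let
`n` be given.
1. Let `G` be any group. A real number is the kernel dimension of a matrix over `ℚ(l)[G]` if and only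
if it is the multiplicity of the eigenvalue `l` of a regular cover with deck group `G` of a finite
connected graph of degree at most `D`, where all cycles of the cover are longer than `n`, and the
cover is connected if `G` is finitely generated. In particular `G` satisfies the Atiyah conjecture
with coefficients in `ℚ(l)` in the torsion-free case if and only if all these multiplicities are
integers.
2. Let `C` be a class of torsion-free groups which is closed under subgroups, direct products,
semidirect products with `ℤ` and free products with free groups of finite rank, for example the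
class of all torsion-free groups. The following are equivalent: the Atiyah conjecture over `ℂ` for
all groups of `C`; integrality of the multiplicity of the eigenvalue `l` for the connected covers as
in 1 over the finitely generated groups of `C`; some real number `r ≥ 0` is not such a
multiplicity. -/
theorem result :
    (∀ (D : ℕ) (l : ℝ), 4 ≤ D → TreeEigenvalue D l → ∀ (n : ℕ) (G : Type) [Group G],
      (∀ r : ℝ, (∃ (a b : ℕ) (A : Matrix (Fin a) (Fin b) (MonoidAlgebra ℂ G)),
        (∀ i j g, (A i j).coeff g ∈ Subfield.closure {(l : ℂ)}) ∧ kerDim A = r) ↔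
      ∃ (V : Type) (_ : Fintype V) (Q : SimpleGraph V) (γ : V → V → G), Fine Q γ D n ∧
        mult (cover Q γ) l = r) ∧
      ((∀ (a b : ℕ) (A : Matrix (Fin a) (Fin b) (MonoidAlgebra ℂ G)),
        (∀ i j g, (A i j).coeff g ∈ Subfield.closure {(l : ℂ)}) → ∃ k : ℤ, kerDim A = k) ↔
      ∀ (V : Type) [Fintype V] (Q : SimpleGraph V) (γ : V → V → G), Fine Q γ D n →
        ∃ k : ℤ, mult (cover Q γ) l = k)) ∧
    ClosedClass (fun (G : Type) [Group G] => TorsionFree G) ∧
    ∀ (D : ℕ) (l : ℝ), 4 ≤ D → TreeEigenvalue D l → ∀ (n : ℕ) (C : (G : Type) → [Group G] → Prop),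
      ClosedClass C → List.TFAE [
        ∀ (G : Type) [Group G], C G → ∀ (a b : ℕ) (A : Matrix (Fin a) (Fin b) (MonoidAlgebra ℂ G)),
          ∃ k : ℤ, kerDim A = k,
        ∀ (G : Type) [Group G], C G → Group.FG G → ∀ (V : Type) [Fintype V] (Q : SimpleGraph V)
          (γ : V → V → G), Fine Q γ D n → ∃ k : ℤ, mult (cover Q γ) l = k,
        ∃ r : ℝ, 0 ≤ r ∧ ∀ (G : Type) [Group G], C G → Group.FG G → ∀ (V : Type) [Fintype V]
          (Q : SimpleGraph V) (γ : V → V → G), Fine Q γ D n → mult (cover Q γ) l ≠ r] := by
  classical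
  refine ⟨?_, cls' AV.closedClass_torsionFree, ?_⟩
  · intro D l hD hl n G _
    refine ⟨fun r => corr hD hl n G r, ?_, ?_⟩
    · intro h V _ Q γ hQ
      obtain ⟨a, b, A, hA, hr⟩ := (corr hD hl n G _).2 ⟨V, inferInstance, Q, γ, hQ, rfl⟩
      obtain ⟨k, hk⟩ := h a b A hA
      exact ⟨k, hr.symm.trans hk⟩
    · intro h a b A hA
      obtain ⟨V, i, Q, γ, hQ, hr⟩ := (corr hD hl n G _).1 ⟨a, b, A, hA, rfl⟩
      obtain ⟨k, hk⟩ := h V Q γ hQ
      exact ⟨k, hr.symm.trans hk⟩
  · intro D l hD hl n C hC
    tfae_have 1 → 2 := by
      intro h1 G _ hG _ V _ Q γ hQ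
      obtain ⟨a, b, A, hA, hr⟩ := (corr hD hl n G _).2 ⟨V, inferInstance, Q, γ, hQ, rfl⟩
      obtain ⟨k, hk⟩ := h1 G hG a b A
      exact ⟨k, hr.symm.trans hk⟩
    tfae_have 2 → 3 := by
      intro h1
      refine ⟨1 / 2, by norm_num, ?_⟩
      intro G _ hG hf V _ Q γ hQ hr
      obtain ⟨z, hz⟩ := h1 G hG hf V Q γ hQ
      rw [hr] at hz
      have h1 : (2 * z : ℝ) = 1 := by linarith
      have h2 : 2 * z = 1 := by exact_mod_cast h1
      omega
    tfae_have 3 → 1 := by
      rintro ⟨r, hr, h2⟩ G _ hG m n' A
      rw [kerDim_fin]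
      exact TE.fine_iff (cls hC) hD hl n ⟨r, hr, fun G _ hG hf V _ Q γ hQ => h2 G hG hf V Q γ hQ⟩
        G hG m n' _
    tfae_finish

end Pool.Agent.Results.MP_95030e_al.TreeEigenvalues
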